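import Pool.Agent.V11266.AntiTree

/-! # Antidirected trees with `a` sources and `b` sinks: `k - 1 + 2 √((a-1)(b-1))` arcs per vertex

Every digraph `D` with more than `(k - 1 + 2 √((a - 1)(b - 1))) |V(D)|` arcs contains every
antidirected tree with `k = a + b - 1` arcs, `a` sources and `b` sinks.  In particular
`2 (k - 1) |V(D)|` arcs are enough for every antidirected tree with `k` arcs. -/

set_option autoImplicit false

namespace Pool.Agent.V11266.Extra.AntiSources

/-- Let `D` be a finite digraph without loops (both arcs between two vertices are allowed) and let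
`A` be the arc relation of an antidirected tree on `k + 1` vertices, `k ≥ 1`: the underlying graph is
a tree and no vertex is the head of one arc and the tail of another.  Let `a` be the number of
vertices of out-degree `≥ 1` (sources) and `b` the number of vertices of in-degree `≥ 1` (sinks).
If `D` has more than `(k - 1 + 2 √((a - 1)(b - 1))) |V|` arcs, or more than `2 (k - 1) |V|` arcs,
then `D` contains the tree. -/
theorem result (k : ℕ) (hk : 1 ≤ k) (V : Type) [Fintype V] (D : Digraph V)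
    (hD : ∀ v, ¬ D.Adj v v) (A : Fin (k + 1) → Fin (k + 1) → Prop)
    (hT : (SimpleGraph.fromRel A).IsTree) (hA : ∀ x y z, A x y → ¬ A y z)
    (h : ((k : ℝ) - 1 + 2 * Real.sqrt ((({x | ∃ y, A x y}.ncard : ℝ) - 1) *
          (({y | ∃ x, A x y}.ncard : ℝ) - 1))) * Fintype.card V <
            Nat.card {p : V × V // D.Adj p.1 p.2} ∨
        2 * (k - 1) * Fintype.card V < Nat.card {p : V × V // D.Adj p.1 p.2}) :
    ∃ f : Fin (k + 1) → V, Function.Injective f ∧ ∀ x y, A x y → D.Adj (f x) (f y) := by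
  classical
  have hnb : ∀ w : Fin (k + 1), ∃ w', (SimpleGraph.fromRel A).Adj w w' := by
    intro w
    have : Nontrivial (Fin (k + 1)) := Fin.nontrivial_iff_two_le.2 (by omega)
    obtain ⟨w', hw'⟩ := exists_ne w
    obtain ⟨q⟩ := hT.connected.preconnected w w'
    cases q with
    | nil => exact absurd rfl hw'
    | cons h _ => exact ⟨_, h⟩
  have hsrc : {x | ∃ y, A x y}.Nonempty := by
    obtain ⟨w', hw⟩ := hnb 0
    rw [SimpleGraph.fromRel_adj] at hw
    rcases hw.2 with h | h
    · exact ⟨_, _, h⟩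
    · exact ⟨_, _, h⟩
  have hsnk : {y | ∃ x, A x y}.Nonempty := by
    obtain ⟨w', hw⟩ := hnb 0
    rw [SimpleGraph.fromRel_adj] at hw
    rcases hw.2 with h | h
    · exact ⟨_, _, h⟩
    · exact ⟨_, _, h⟩
  have hdis : Disjoint {x | ∃ y, A x y} {y | ∃ x, A x y} := by
    rw [Set.disjoint_left]
    rintro w ⟨y, hy⟩ ⟨x, hx⟩
    exact hA x w y hx hy
  have hsum : {x | ∃ y, A x y}.ncard + {y | ∃ x, A x y}.ncard ≤ k + 1 := by
    rw [← Set.ncard_union_eq hdis (Set.toFinite _) (Set.toFinite _)]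
    calc _ ≤ (Set.univ : Set (Fin (k + 1))).ncard :=
          Set.ncard_le_ncard (Set.subset_univ _) (Set.toFinite _)
      _ = k + 1 := by rw [Set.ncard_univ, Nat.card_eq_fintype_card, Fintype.card_fin]
  have ha1 : 1 ≤ {x | ∃ y, A x y}.ncard := (Set.ncard_pos (Set.toFinite _)).2 hsrc
  have hb1 : 1 ≤ {y | ∃ x, A x y}.ncard := (Set.ncard_pos (Set.toFinite _)).2 hsnk
  have hnot : {w | ¬ ∃ y, A w y} ⊆ {y | ∃ x, A x y} := by
    intro w hw
    obtain ⟨w', hw'⟩ := hnb w
    rw [SimpleGraph.fromRel_adj] at hw'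
    rcases hw'.2 with h | h
    · exact absurd ⟨w', h⟩ hw
    · exact ⟨w', h⟩
  have hnot' := Set.ncard_le_ncard hnot (Set.toFinite _)
  obtain ⟨α, hα⟩ : ∃ α, {x | ∃ y, A x y}.ncard = α + 1 := ⟨_, (Nat.sub_add_cancel ha1).symm⟩
  obtain ⟨β, hβ⟩ : ∃ β, {y | ∃ x, A x y}.ncard = β + 1 := ⟨_, (Nat.sub_add_cancel hb1).symm⟩
  rw [hα, hβ] at h
  have hαβ : (α : ℝ) + β ≤ (k : ℝ) - 1 := by
    rw [hα, hβ] at hsum
    have : ((α + 1 + (β + 1) : ℕ) : ℝ) ≤ ((k + 1 : ℕ) : ℝ) := by exact_mod_cast hsum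
    push_cast at this
    linarith
  have q1 : Real.sqrt α ^ 2 = α := Real.sq_sqrt (Nat.cast_nonneg α)
  have q2 : Real.sqrt β ^ 2 = β := Real.sq_sqrt (Nat.cast_nonneg β)
  have hn : (0 : ℝ) ≤ Fintype.card V := Nat.cast_nonneg _
  have hmain : (Real.sqrt α + Real.sqrt β) ^ 2 * Fintype.card V <
      Nat.card {p : V × V // D.Adj p.1 p.2} := by
    rcases h with h | h
    · refine lt_of_le_of_lt (mul_le_mul_of_nonneg_right ?_ hn) h
      have e : ((((α + 1 : ℕ) : ℝ) - 1) * (((β + 1 : ℕ) : ℝ) - 1)) = (α : ℝ) * β := by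
        push_cast; ring
      rw [e, Real.sqrt_mul (Nat.cast_nonneg α)]
      nlinarith
    · have h' : (2 * ((k : ℝ) - 1)) * Fintype.card V < Nat.card {p : V × V // D.Adj p.1 p.2} := by
        have h2 : ((2 * (k - 1) * Fintype.card V : ℕ) : ℝ) <
            ((Nat.card {p : V × V // D.Adj p.1 p.2} : ℕ) : ℝ) := by exact_mod_cast h
        rw [Nat.cast_mul, Nat.cast_mul, Nat.cast_sub hk] at h2
        push_cast at h2
        exact h2
      refine lt_of_le_of_lt (mul_le_mul_of_nonneg_right ?_ hn) h'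
      have := sq_nonneg (Real.sqrt α - Real.sqrt β)
      nlinarith
  obtain ⟨f, f1, f2⟩ := V11266.AntiTree.main (fun u v => D.Adj u v) hD α β hmain (Fin (k + 1))
    (SimpleGraph.fromRel A) hT (fun w => ∃ y, A w y) (by
      intro u v huv
      rw [SimpleGraph.fromRel_adj] at huv
      constructor
      · rintro ⟨y, hy⟩ ⟨z, hz⟩
        rcases huv.2 with h | h
        · exact hA u v z h hz
        · exact hA v u y h hy
      · intro hv
        rcases huv.2 with h | h
        · exact ⟨v, h⟩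
        · exact absurd ⟨u, h⟩ hv) hα.le (by omega)
  refine ⟨f, f1, ?_⟩
  intro x y hxy
  have hne : x ≠ y := by
    rintro rfl
    exact hA x x x hxy hxy
  exact f2 x y (by rw [SimpleGraph.fromRel_adj]; exact ⟨hne, Or.inl hxy⟩) ⟨y, hxy⟩
    (by rintro ⟨z, hz⟩; exact hA x y z hxy hz)

end Pool.Agent.V11266.Extra.AntiSources
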